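import Pool.Agent.X256.CT.Basic

/-!
# The amenability constant of the central Fourier algebra does not grow under normal Hall quotients
-/

open scoped BigOperators Classical TensorProduct
open Representation Pool.Agent.Helper884.IC Pool.Agent.X256.CT

noncomputable section

namespace Pool.Agent.Results.MP_222fdd_al.HallQuotient

/-- the space of complex class functions on `G` -/
def ZA (G : Type) [Group G] : Submodule ℂ (G → ℂ) where
  carrier := {u | ∀ g y : G, u (y * g * y⁻¹) = u g}
  add_mem' := by
    intro a b ha hb g y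
    simp only [Pi.add_apply, ha g y, hb g y]
  zero_mem' := by
    intro g y
    rfl
  smul_mem' := by
    intro c a ha g y
    simp only [Pi.smul_apply, ha g y]

/-- the coefficient of `chi` in the expansion of a class function in irreducible characters -/
def coeff {G : Type} [Group G] [Fintype G] (u chi : G → ℂ) : ℂ :=
  (Nat.card G : ℂ)⁻¹ * ∑ g : G, u g * chi g⁻¹

/-- the norm of the central Fourier algebra: sum over the irreducible characters of
degree times absolute value of the coefficient -/
def normA {G : Type} [Group G] [Fintype G] (u : ZA G) : ℝ :=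
  ∑ chi ∈ Irr G, ‖chi 1‖ * ‖coeff (u : G → ℂ) chi‖

/-- the projective tensor norm on `ZA(G) ⊗ ZA(G)` -/
def projNorm {G : Type} [Group G] [Fintype G] (t : ZA G ⊗[ℂ] ZA G) : ℝ :=
  sInf {r : ℝ | ∃ (n : ℕ) (u v : Fin n → ZA G),
    t = ∑ i, u i ⊗ₜ[ℂ] v i ∧ r = ∑ i, normA (u i) * normA (v i)}

/-- the indicator function of a conjugacy class -/
def ind {G : Type} [Group G] (C : ConjClasses G) : ZA G :=
  ⟨fun g => if ConjClasses.mk g = C then 1 else 0, by
    intro g y
    have h : ConjClasses.mk (y * g * y⁻¹) = ConjClasses.mk g := by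
      rw [ConjClasses.mk_eq_mk_iff_isConj, isConj_comm]
      exact isConj_iff.mpr ⟨y, rfl⟩
    simp only [h]⟩

/-- the diagonal of `ZA(G)` -/
def diag (G : Type) [Group G] [Fintype G] : ZA G ⊗[ℂ] ZA G :=
  ∑ C : ConjClasses G, ind C ⊗ₜ[ℂ] ind C

/-- the amenability constant of `ZA(G)` -/
def AMZA (G : Type) [Group G] [Fintype G] : ℝ := projNorm (diag G)

lemma normA_nonneg {G : Type} [Group G] [Fintype G] (u : ZA G) : 0 ≤ normA u :=
  Finset.sum_nonneg fun _ _ => mul_nonneg (norm_nonneg _) (norm_nonneg _)

/-- restriction of class functions along a homomorphism -/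
def res {G H : Type} [Group G] [Group H] (s : H →* G) : ZA G →ₗ[ℂ] ZA H where
  toFun u := ⟨fun x => (u : G → ℂ) (s x), by
    intro g y
    have := u.2 (s g) (s y)
    simpa using this⟩
  map_add' := by
    intro a b
    ext x
    rfl
  map_smul' := by
    intro c a
    ext x
    rfl

lemma res_apply {G H : Type} [Group G] [Group H] (s : H →* G) (u : ZA G) (x : H) :
    ((res s u : ZA H) : H → ℂ) x = (u : G → ℂ) (s x) := rfl

lemma ind_apply {G : Type} [Group G] (C : ConjClasses G) (g : G) :
    ((ind C : ZA G) : G → ℂ) g = if ConjClasses.mk g = C then 1 else 0 := rfl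

lemma normA_res {G H : Type} [Group G] [Fintype G] [Group H] [Fintype H] (s : H →* G)
    (u : ZA G) : normA (res s u) ≤ normA u := by
  have hu : IsClass (u : G → ℂ) := u.2
  have h1 : ((res s u : ZA H) : H → ℂ) =
      ∑ chi ∈ Irr G, coeff (u : G → ℂ) chi • (fun x : H => chi (s x)) := by
    funext x
    have h2 := congrFun (expand (u : G → ℂ) hu) (s x)
    change (u : G → ℂ) (s x) = _
    rw [h2]
    simp only [Finset.sum_apply, Pi.smul_apply]
    rfl
  have h3 : ∀ psi ∈ Irr H, coeff ((res s u : ZA H) : H → ℂ) psi =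
      ∑ chi ∈ Irr G, coeff (u : G → ℂ) chi * B (fun x : H => chi (s x)) psi := by
    intro psi _
    rw [h1]
    change B _ psi = _
    rw [B_sum_left]
    simp only [B_smul_left]
  calc normA (res s u) ≤ ∑ psi ∈ Irr H, ∑ chi ∈ Irr G,
        ‖psi 1‖ * (‖coeff (u : G → ℂ) chi‖ * ‖B (fun x : H => chi (s x)) psi‖) := by
        unfold normA
        refine Finset.sum_le_sum fun psi hpsi => ?_
        rw [h3 psi hpsi, ← Finset.mul_sum]
        refine mul_le_mul_of_nonneg_left ?_ (norm_nonneg _)
        refine (norm_sum_le _ _).trans (le_of_eq ?_)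
        refine Finset.sum_congr rfl fun chi _ => ?_
        rw [norm_mul]
    _ = ∑ chi ∈ Irr G, ‖coeff (u : G → ℂ) chi‖ *
        ∑ psi ∈ Irr H, ‖psi 1‖ * ‖B (fun x : H => chi (s x)) psi‖ := by
        rw [Finset.sum_comm]
        refine Finset.sum_congr rfl fun chi _ => ?_
        rw [Finset.mul_sum]
        refine Finset.sum_congr rfl fun psi _ => ?_
        ring
    _ = normA u := by
        unfold normA
        refine Finset.sum_congr rfl fun chi hchi => ?_
        rw [mul_comm]
        congr 1
        have hc : IsChar (fun x : H => chi (s x)) :=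
          (IsChar.of_irr (mem_Irr.mp hchi)).comp s
        have h4 := congrFun (expand _ hc.isClass) 1
        simp only [Finset.sum_apply, Pi.smul_apply, smul_eq_mul, map_one] at h4
        have h5 : ∀ psi ∈ Irr H, B (fun x : H => chi (s x)) psi * psi 1 =
            ((‖psi 1‖ * ‖B (fun x : H => chi (s x)) psi‖ : ℝ) : ℂ) := by
          intro psi hpsi
          obtain ⟨n, hn⟩ := hc.B_nat (IsChar.of_irr (mem_Irr.mp hpsi))
          obtain ⟨m, _, hm⟩ := Pool.Agent.Y63.AWC.deg_nat (mem_Irr.mp hpsi)
          rw [hn, hm]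
          simp only [Complex.norm_natCast]
          push_cast
          ring
        rw [Finset.sum_congr rfl h5, ← Complex.ofReal_sum] at h4
        rw [h4, Complex.norm_real, Real.norm_of_nonneg]
        exact Finset.sum_nonneg fun _ _ => mul_nonneg (norm_nonneg _) (norm_nonneg _)

lemma map_diag {G H : Type} [Group G] [Fintype G] [Group H] [Fintype H] (s : H →* G)
    (hs : ∀ x y : H, IsConj (s x) (s y) → IsConj x y) :
    TensorProduct.map (res s) (res s) (diag G) = diag H := by
  unfold diag
  rw [map_sum]
  simp only [TensorProduct.map_tmul]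
  have hinj : Function.Injective (ConjClasses.map s) := by
    intro a b
    obtain ⟨x, rfl⟩ := ConjClasses.mk_surjective a
    obtain ⟨y, rfl⟩ := ConjClasses.mk_surjective b
    intro h
    exact ConjClasses.mk_eq_mk_iff_isConj.mpr (hs x y (ConjClasses.mk_eq_mk_iff_isConj.mp h))
  have h1 : ∀ C : ConjClasses G, C ∉ Set.range (ConjClasses.map s) →
      res s (ind C) = 0 := by
    intro C hC
    apply Subtype.ext
    funext x
    rw [res_apply, ind_apply, if_neg]
    · rfl
    · intro h
      exact hC ⟨ConjClasses.mk x, h⟩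
  have h2 : ∀ D : ConjClasses H, res s (ind (ConjClasses.map s D)) = ind D := by
    intro D
    apply Subtype.ext
    funext x
    rw [res_apply, ind_apply, ind_apply]
    have : (ConjClasses.mk (s x) = ConjClasses.map s D) ↔ ConjClasses.mk x = D :=
      ⟨fun h => hinj h, fun h => by rw [← h]; rfl⟩
    by_cases h : ConjClasses.mk x = D
    · rw [if_pos (this.mpr h), if_pos h]
    · rw [if_neg (fun h' => h (this.mp h')), if_neg h]
  rw [← Finset.sum_subset (Finset.subset_univ (Finset.univ.image (ConjClasses.map s)))]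
  · rw [Finset.sum_image (fun a _ b _ h => hinj h)]
    refine Finset.sum_congr rfl fun D _ => ?_
    rw [h2 D]
  · intro C _ hC
    rw [h1 C, TensorProduct.zero_tmul]
    rintro ⟨D, rfl⟩
    exact hC (Finset.mem_image_of_mem _ (Finset.mem_univ D))

/-- if a homomorphism `s : H → G` separates conjugacy classes then `AMZA(H) ≤ AMZA(G)` -/
theorem amza_le {G H : Type} [Group G] [Fintype G] [Group H] [Fintype H] (s : H →* G)
    (hs : ∀ x y : H, IsConj (s x) (s y) → IsConj x y) : AMZA H ≤ AMZA G := by
  unfold AMZA projNorm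
  refine le_csInf ?_ ?_
  · -- nonempty
    let e : Fin (Fintype.card (ConjClasses G)) ≃ ConjClasses G :=
      (Fintype.equivFin (ConjClasses G)).symm
    refine ⟨_, Fintype.card (ConjClasses G), fun i => ind (e i), fun i => ind (e i), ?_, rfl⟩
    unfold diag
    exact (Equiv.sum_comp e (fun C : ConjClasses G => ind C ⊗ₜ[ℂ] ind C)).symm
  · rintro r ⟨n, u, v, ht, rfl⟩
    refine le_trans (csInf_le ?_ ⟨n, fun i => res s (u i), fun i => res s (v i), ?_, rfl⟩) ?_
    · refine ⟨0, ?_⟩
      rintro r ⟨n, u, v, -, rfl⟩
      exact Finset.sum_nonneg fun i _ => mul_nonneg (normA_nonneg _) (normA_nonneg _)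
    · rw [← map_diag s hs, ht, map_sum]
      simp only [TensorProduct.map_tmul]
    · refine Finset.sum_le_sum fun i _ => ?_
      exact mul_le_mul (normA_res s _) (normA_res s _) (normA_nonneg _) (normA_nonneg _)

/-- **Main theorem.** If `N` is a normal Hall subgroup of the finite group `G` then
`AMZA(G/N) ≤ AMZA(G)`; the same holds for every normal subgroup `N` with a complement. -/
theorem result (G : Type) [Group G] [Fintype G] (N : Subgroup G) [N.Normal] :
    (Nat.Coprime (Nat.card N) N.index → AMZA (G ⧸ N) ≤ AMZA G) ∧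
    (∀ H : Subgroup G, Subgroup.IsComplement' N H → AMZA (G ⧸ N) ≤ AMZA G) := by
  have key : ∀ H : Subgroup G, Subgroup.IsComplement' N H → AMZA (G ⧸ N) ≤ AMZA G := by
    intro H hH
    let e : G ⧸ N ≃* H := hH.symm.QuotientMulEquiv
    let s : G ⧸ N →* G := H.subtype.comp e.toMonoidHom
    have hs1 : ∀ q : G ⧸ N, (QuotientGroup.mk' N) (s q) = q := by
      intro q
      exact e.symm_apply_apply q
    refine amza_le s ?_
    intro x y hxy
    have := (QuotientGroup.mk' N).map_isConj hxy
    rwa [hs1, hs1] at this
  refine ⟨?_, key⟩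
  intro hc
  obtain ⟨H, hH⟩ := Subgroup.exists_right_complement'_of_coprime hc
  exact key H hH

end Pool.Agent.Results.MP_222fdd_al.HallQuotient
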